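import Pool.Agent.H932R4.MO.Stmts

set_option autoImplicit false

open Finset

namespace Pool.Agent.H932R4.MO.T2_768

theorem abs_clip_le {b : ℝ} (hb : 0 ≤ b) (s : ℝ) : |clip b s| ≤ b := by
  unfold clip
  rw [abs_le]
  exact ⟨le_max_left _ _, max_le (by linarith) (min_le_right _ _)⟩

theorem Bd_nonneg (ε : ℝ) (x : ℝ) (hx : 0 ≤ x) : 0 ≤ Bd ε x :=
  div_nonneg (Real.rpow_nonneg hx _) (sq_nonneg _)

theorem one_lt_log {p : ℕ} (hp : 3 ≤ p) : 1 < Real.log p := by
  have h3 : (3 : ℝ) ≤ p := by exact_mod_cast hp
  rw [Real.lt_log_iff_exp_lt (by linarith)]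
  have := Real.exp_one_lt_d9
  linarith

theorem t2 : T2 := by
  classical
  intro ε N₀ f _hε hN hf
  refine ⟨fun n => ?_, fun n => ?_⟩
  · by_cases hs : Squarefree n
    · by_cases hb : ∀ p ∈ n.primeFactors, N₀ ≤ p
      · rw [hf.sq n hs, bw, if_pos ⟨hs, hb⟩, Finset.abs_prod]
        have hn : (n : ℝ) = ∏ p ∈ n.primeFactors, (p : ℝ) := by
          have := Nat.prod_primeFactors_of_squarefree hs
          conv_lhs => rw [← this]
          push_cast
          rfl
        have hr : (n : ℝ) ^ (-1 + ε) = ∏ p ∈ n.primeFactors, (p : ℝ) ^ (-1 + ε) := by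
          rw [hn, Real.finsetProd_rpow]
          intro p _
          positivity
        rw [hr, ← Finset.prod_mul_distrib]
        refine Finset.prod_le_prod (fun p _ => abs_nonneg _) fun p hp => ?_
        have hpp := Nat.prime_of_mem_primeFactors hp
        rw [hf.big p hpp (hb p hp), abs_neg]
        refine (abs_clip_le (Bd_nonneg ε p (by positivity)) _).trans (le_of_eq ?_)
        unfold Bd
        ring
      · push Not at hb
        obtain ⟨p, hp, hpN⟩ := hb
        have h0 : f n = 0 := by
          rw [hf.sq n hs]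
          exact Finset.prod_eq_zero hp (hf.small p (Nat.prime_of_mem_primeFactors hp) hpN)
        have h1 : bw N₀ n = 0 := by
          unfold bw
          rw [if_neg]
          rintro ⟨_, h⟩
          exact absurd (h p hp) (by omega)
        rw [h0, h1]
        simp
    · have h1 : bw N₀ n = 0 := by
        unfold bw
        rw [if_neg]
        rintro ⟨h, _⟩
        exact hs h
      rw [hf.nsq n hs, h1]
      simp
  · unfold bw
    split_ifs with h
    · refine ⟨Finset.prod_nonneg fun p _ => by positivity, ?_⟩
      refine Finset.prod_le_one (fun p _ => by positivity) fun p hp => ?_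
      have h1 := one_lt_log (hN.trans (h.2 p hp))
      rw [div_le_one (by positivity)]
      nlinarith
    · exact ⟨le_rfl, zero_le_one⟩

end Pool.Agent.H932R4.MO.T2_768
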